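import Mathlib
import Pool.Agent.J4H9.BSStm

/-!
# MP_666bea_ag: the conjecture of Bloch and Soulé for all schemes which are built from abelian
# varieties in almost all isogeny classes over a finite field, also for a fixed finite field

**The conjecture.** `A m k X` is the family of the groups `CH_m(X, k) ⊗ ℚ` (this is
`CH^r(X, k) ⊗ ℚ`, `r = d - m`) for the schemes `X` of finite type over `ℤ`, of which we use the known
properties `IsChowTheory` (localization sequences by Bloch and Levine, homotopy invariance for affine
bundles, ...; see also the starting file `MP_666bea_ag/OrdersOfThreeTermSystems`) and `KahnTheorem`.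
`Formula A X` says that the Euler product of `X` has a meromorphic continuation `F` to `ℂ`, and that for
all integers `m` the spaces `A m k X`, `k ∈ ℤ`, are finite-dimensional and almost all zero, and
`ord_{s = m} F = -∑ (-1)^k dim A m k X`: the assertions of Q1 and Q2 for `X`.

**The schemes.** Let `f 1, …, f m` be Weil polynomials over the field with `q` elements.
`IsMember q b f` contains the abelian varieties `B` over all extensions `k` of this field (as schemes
over `ℤ`) with a characteristic polynomial of Frobenius `h₁ h₂`, where all roots of `h₁` are powers of
roots of the `f i`, and `h₂` has the degree at most `b` and no exotic Tate classes (`NoExotic`). So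
these are the abelian varieties which are isogenous over `k` to products `B₁ × B₂`, `B₁` a product of
factors (with any multiplicities) of the abelian varieties with the characteristic polynomials `f i`,
and `B₂` any abelian variety of dimension at most `b / 2` such that all Tate classes on `B₂` are
generated by those of degree two; for example products of elliptic curves, or zero. `Built` is the
smallest class of schemes of finite type over `ℤ` which contains these, and all schemes for
which `Formula` is true, and which contains with two of the three schemes `Z` (closed in `X`), `X`,
`X \ Z` also the third one, and with the base of an affine bundle also the total space, and conversely: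
so it contains all open complements of unions of (translates of) such abelian subvarieties, vector
bundles, projective bundles, torus bundles (semiabelian varieties) and their compactifications, and
blowing ups with such centres.

**The theorem.** Let `q = p ^ a` and let `ν` be a symmetric Newton polygon with the slopes
`lam 0 ≤ lam 1 ≤ ⋯ ≤ lam (g - 1)`, `0 ≤ lam i ≤ 1 / 2`. The set `newtonAbove p a lam g` consists of
the Weil polynomials of degree `2 g` over the field with `q` elements whose Newton polygon is not below
`ν`, and the set `newtonThrough p a lam g E` of those members whose Newton polygon meets `ν` over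
all points of the set `E`. Assume that the height of `ν` over `g` is at most `(1 / 2 - μ) g`. Let `S` be
a subset of `newtonAbove p a lam g` with at least `1 / D` times as many elements as
`newtonThrough p a lam g E`. With at most `m ^ 2 D 2 ^ #E 8 ^ g q ^ (- (μ / 4 - ε) g)` times the number
of all tuples as exceptions, the tuples `(f 1, …, f m)` of elements of `S` satisfy
`BlochSouleFor q (g / 2) f`: the formula is true for all schemes that are built from the abelian
varieties in `IsMember q (g / 2) f` (and other schemes for which it is true).

So if `q > 2 ^ (12 / μ)` is fixed and `g` tends to infinity, then the conjecture is true for all schemes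
built in this way from the abelian varieties in almost all isogeny classes in each Newton stratum; the
slopes `lam i = 0` give all abelian varieties.

**The proof.** (1) The zeta function of an abelian variety is computed from its numbers of points, and
its order at `s = m` from the roots. (2) The counting part is that of `MP_021685_ag/NewtonStrata`: it
shows that the conjugates of the Weil numbers have no multiplicative relations except for those of the
complex conjugate pairs, even together with the numbers of degree at most `g / 2`; this gives
`NoExotic` for `h₁ h₂`, and the theorems of Tate and Kahn apply. (3) The order of the zeta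
function and the Euler characteristic of the higher Chow groups are additive for the localization
sequences.
-/

set_option autoImplicit false

namespace Pool.Agent.Results.MP_666bea_ag.AlmostAllIsogenyClasses

open Polynomial Pool.Agent.J4H9.NGauss Pool.Agent.J4H9.NStm Pool.Agent.J4H9.BS

universe w

theorem result (μ ε : ℝ) (hμ : 0 < μ) (hμ1 : μ ≤ 1 / 2) (hε : 0 < ε) (hε1 : ε < μ / 4) :
    ∃ g₀ : ℕ, ∀ g : ℕ, g₀ ≤ g → ∀ p a : ℕ, p.Prime → 0 < a → ∀ lam : ℕ → ℝ, Slopes lam →
      ∑ i ∈ Finset.range g, lam i ≤ (1 / 2 - μ) * g →
      ∀ E : Finset ℕ, (∀ j ∈ E, 0 < j ∧ j ≤ g ∧
        ∃ n : ℕ, (a : ℝ) * ∑ i ∈ Finset.range j, lam i = n) →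
      ((newtonAbove p a lam g).Finite ∧
        (64 ≤ ((p ^ a : ℕ) : ℝ) ^ (μ / 2) → 0 < (newtonThrough p a lam g E).ncard)) ∧
      ∀ (S : Set ℤ[X]) (D : ℝ), S ⊆ newtonAbove p a lam g → 1 ≤ D →
        ((newtonThrough p a lam g E).ncard : ℝ) ≤ D * S.ncard → ∀ m : ℕ,
        ({f : Fin m → ℤ[X] | (∀ i, f i ∈ S) ∧ ¬ BlochSouleFor.{w} (p ^ a) (g / 2) f}.ncard : ℝ) ≤
          (m : ℝ) ^ 2 * D * 2 ^ E.card * 8 ^ g *
            ((p ^ a : ℕ) : ℝ) ^ (-((μ / 4 - ε) * g)) * (S.ncard : ℝ) ^ m :=
  blochSoule_main hμ hμ1 hε hε1

end Pool.Agent.Results.MP_666bea_ag.AlmostAllIsogenyClasses
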