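import Pool.Agent.J4H10.BS.Main4

/-!
# Zeta functions and higher Chow groups of products of hypersurfaces `z ^ m = D_1(x_1) ... D_r(x_r)`

Let `k` be a finite field with `q` elements, `ℓ` a prime, `σ : J → S` a map of finite sets, `m_s` (`s ∈ S`) powers
of `ℓ` which divide `q - 1`, and let `X` be the product of the hypersurfaces

`X_s : z_s ^ (m_s) = ∏ D_j(x_j)`, the product over all `j` with `σ(j) = s`, in `𝔸 ^ (#σ⁻¹(s) + 1)`,

where the `D_j` are ANY nonconstant polynomials in one variable over `k`, except that each `X_s` contains one
`D_j`, `j ∈ Q ⊆ J`, as follows: `D_j` is irreducible, its degree is prime to `ℓ` and to the degrees of the prime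
factors of all the other polynomials `D_j'`.

The number of the `D_j` is arbitrary; `X_s` is singular if there is more than one `j` over `s` and `m_s ≠ 1`; for
`S = J = Q`, `X` is a product of affine smooth curves. Example: `z ^ m = h_1(y_1) ... h_t(y_t) D(x)`, where `D` is
irreducible of prime degree `d ≠ ℓ`, and the `h_i` are any nonconstant polynomials of degree less than `d`
(for `m = 2` and squarefree `h_i`, `X` is birational to the quotient of the product of arbitrary `t` hyperelliptic
curves and one curve by the even changes of sign).

**Consequence of the theorem** (in words): the statements of Bloch and Soulé (Q2 for all integers, and Q1, which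
is known over finite fields by a theorem of Dwork) hold for `X`, and for the base change of `X` to every extension
of `k` whose degree is prime to the degrees of the `D_j`, `j ∈ Q`. (If `k` does not contain the `m`-th roots of unity, apply this to the extension by them: the same
holds over `k` if the degrees of the `D_j`, `j ∈ Q`, are also prime to the degree of this extension.)

* Q1. By the theorem `ζ_X(s) = ∏ (1 - β q ^ (-s)) / ((1 - q ^ (#J - s)) ∏ (1 - α q ^ (-s)))`, and at the integers
  this function has only one zero or pole: a simple pole at `s = #J = dim X`.
* Q2. All groups `CH_n(X, i)` have rank zero, but for `CH_(dim X)(X, 0)`, which has rank one. Proof: let `G` be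
  the product of the groups `μ_(m_s)`; `X / G` is the affine space of dimension `#J`. Extend the
  coefficients from `ℚ` to the field of the `m`-th roots of unity and decompose the rational higher Chow groups
  under `G`. The invariant part is that of the affine space. Let `χ = (χ_s)` be a character different from
  one, and `T` the set of the `s` with `χ_s ≠ 1`. By localization the part `χ` comes from the products, over
  the `j` with `σ(j) ∈ T`, of the parts `χ_s` of the motives with compact supports of the curves
  `C_j : w ^ m = D_j(x)`, `w ≠ 0`, times an affine space; and these from `h ^ 1` of the smooth projective model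
  of `C_j`, from the points of this model over infinity and over the zeros of `D_j`, and (if `D_j` is a
  constant times a power of order divisible by the order of `χ_s`) from the line. All these motives are
  direct factors of motives of products of curves, so they are finite dimensional (Kimura): if `f` is the
  characteristic polynomial of Frobenius `F` on the cohomology, a power of `f(F)` is zero as a
  correspondence. But `F` acts on `CH_n( , i)` as `q ^ n`, and `f(q ^ n) ≠ 0` by (the proof of) the theorem, because
  the eigenvalues of `F` are the products of the eigenvalues which belong to the `D_j`. So the part `χ` is zero.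

The theorem is proved by congruences modulo a prime above `ℓ`: let `χ` be a character of `ℓ`-power order. The
L-function of `χ` and of a polynomial with the prime factors `π` is congruent to `∏ (1 - T ^ (deg π)) / (1 - T)`. So
the eigenvalues of Frobenius are congruent to zero or to roots of unity of order dividing some `deg π`, and to
nontrivial roots of unity of order dividing `deg D_j` for `j ∈ Q`; and `q` is congruent to one.
-/

set_option autoImplicit false

namespace Pool.Agent.Results.MP_666bea_ag.CyclicHypersurfaces

open Polynomial

open Classical in
/-- The points over `K` of the product of the hypersurfaces `z_s ^ (m_s) = ∏_(σ(j) = s) D_j(x_j)`. -/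
def Pts {k : Type} [Field k] {J S : Type} [Fintype J] [Fintype S] (σ : J → S) (m : S → ℕ)
    (D : J → k[X]) (K : Type) [Field K] [Algebra k K] : Type :=
  {p : (J → K) × (S → K) // ∀ s, p.2 s ^ m s = ∏ j with σ j = s, aeval (p.1 j) (D j)}

/-- **The zeta function of products of the hypersurfaces `z ^ m = D_1(x_1) ... D_r(x_r)`.** Let `k` be a finite
field with `q` elements, `ℓ` a prime, `σ : J → S` a map of finite sets, `m_s = ℓ ^ (a_s)` divisors of `q - 1`, and
let `D_j` be nonconstant polynomials over `k`. Let `Q ⊆ J` be a set such that each `s ∈ S` is `σ(j)` for some
`j ∈ Q`, and for all `j ∈ Q`: `D_j` is irreducible, its degree is prime to `ℓ` and to the degrees of the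
prime factors of all `D_j'`, `j' ≠ j`. There are finite multisets `A`, `B` of complex numbers such that

* for all finite extensions `K` of `k`, `n = [K : k]`: the number of the points over `K` is
  `(#K) ^ (#J) + ∑ α ^ n - ∑ β ^ n` (sums over `α ∈ A`, `β ∈ B`);
* all elements `x` of `A` and `B` are algebraic integers, and `x ^ N ≠ q ^ i` for all `N` prime to
  the degrees of the `D_j`, `j ∈ Q`, and all integers `i`. -/
theorem result (k : Type) [Field k] [Finite k] (ℓ : ℕ) [Fact ℓ.Prime] {J S : Type} [Fintype J]
    [Fintype S] (σ : J → S) (a : S → ℕ) (ha : ∀ s, ℓ ^ a s ∣ Nat.card k - 1) (D : J → k[X])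
    (hD : ∀ j, 0 < (D j).natDegree) (Q : Set J) (hσ : ∀ s, ∃ j ∈ Q, σ j = s)
    (hQ : ∀ j ∈ Q, Irreducible (D j) ∧ Nat.Coprime (D j).natDegree ℓ ∧
      ∀ j', j' ≠ j → ∀ π : k[X], Irreducible π → π ∣ D j' →
        Nat.Coprime (D j).natDegree π.natDegree) :
    ∃ A B : Multiset ℂ,
      (∀ (K : Type) [Field K] [Algebra k K] [Finite K],
        (Nat.card (Pts σ (fun s => ℓ ^ a s) D K) : ℂ) = (Nat.card K : ℂ) ^ Fintype.card J +
          (A.map fun x => x ^ Module.finrank k K).sum -
          (B.map fun x => x ^ Module.finrank k K).sum) ∧
      ∀ x ∈ A + B, IsIntegral ℤ x ∧ ∀ N : ℕ, (∀ j ∈ Q, Nat.Coprime N (D j).natDegree) →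
        ∀ i : ℤ, x ^ N ≠ (Nat.card k : ℂ) ^ i :=
  Pool.Agent.J4H10.BS.main4 ℓ σ a ha D hD Q hσ hQ

end Pool.Agent.Results.MP_666bea_ag.CyclicHypersurfaces
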