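import Mathlib
import Pool.Agent.J4H9.BC.Main
import Pool.Agent.J4H5.BC.Pts
import Pool.Agent.J4H44.BC.Ord
import Pool.Agent.J4H74.BC.Nec
import Pool.Agent.J4H57.BF.Jor
import Pool.Agent.J4H72.BF.Tri
import Pool.Agent.J4H97.BF.N3
import Pool.Agent.J4H94.BF.Dcn
import Pool.Agent.J4H19.BF.K3
import Pool.Agent.J4H54.BF.Avg
import Pool.Agent.J4H2.BF.Top

/-!
# MP_666bea_ag: the conjecture of Bloch and Soulé for the products of almost all abelian varieties
# with all curves over a finite field

The notation is that of `AlmostAllIsogenyClasses`: `A m k X` are the groups `CH_m(X, k) ⊗ ℚ` with the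
known properties `IsChowTheory`, `KahnTheorem` and `KahnTheoremCurves` (the theorem of Kahn for
abelian varieties, and for the products of abelian varieties and curves), and `Formula A X` contains
the assertions of Q1 and Q2 for `X`: the Euler product of `X` has a meromorphic continuation `F` to
`ℂ`, and for all integers `m` the spaces `A m k X`, `k ∈ ℤ`, are finite-dimensional and almost all
zero, and `ord_{s = m} F = -∑ (-1)^k dim A m k X`.

Let `f 1, …, f m` be Weil polynomials over the field with `q` elements. `IsCurveMember q f` contains the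
products `B × C` over all extensions `k` of this field, where `C` is **any** smooth projective
curve over `k`, and `B` is an abelian variety over `k` all of whose Frobenius eigenvalues are powers of
roots of the `f i`, that is, `B` is isogenous to a product of factors (with any multiplicities) of the
abelian varieties with the characteristic polynomials `f i`. `IsMember q b f` contains the abelian
varieties of `AlmostAllIsogenyClasses`. `BlochSouleCurvesFor q b f` is the assertion that `Formula` is
true for all schemes that are built from these (and others for which it is true) by localization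
sequences and affine bundles.

The sets `newtonAbove p a lam g` and `newtonThrough p a lam g E` consist of the Weil polynomials of
degree `2 g` over the field with `q = p ^ a` elements whose Newton polygon is not below the symmetric
polygon `ν` with the slopes `lam`, and which meets `ν` over `E`. The height of `ν` over `g` is at most
`(1 / 2 - μ) g`. Let `S` be a subset of `newtonAbove p a lam g` with at least `1 / D` times as many
elements as `newtonThrough p a lam g E`, such that for all members of `S` the sum of the three smallest
slopes is less than one (`Three`), for example `S = newtonThrough p a lam g E`, if `E` contains `g` and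
the vertices of `ν` and `lam 0 + lam 1 + lam 2 < 1`. Then, with at most
`m ^ 2 D 2 ^ #E 8 ^ g q ^ (- (μ / 4 - ε) g)` times the number of all tuples as exceptions, the tuples
`(f 1, …, f m)` of elements of `S` satisfy `BlochSouleCurvesFor q (g / 2) f`. The field is fixed,
`q > 16 ^ (4 / μ)`, and the dimension tends to infinity. The condition on the slopes is necessary for
all curves at once: without it there are curves `C` with Tate classes in `H ^ 3 (B) ⊗ H ^ 1 (C)` which do
not come from divisors.

The proof: the Galois groups of the families contain the elements which exchange two pairs `z, q / z` of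
one polynomial and fix all other roots of the family; so no product of at least three roots in
different pairs with a Weil number of weight one is a power of `q` times a root of unity. This gives
the Tate conjecture for `B × C`, and the theorem of Kahn applies; the order of the zeta function is
computed from the numbers of points.
-/

set_option autoImplicit false

namespace Pool.Agent.Results.MP_666bea_ag.ProductsWithAllCurves

open Polynomial Pool.Agent.J4H9.NGauss Pool.Agent.J4H9.NStm Pool.Agent.J4H9.BF Pool.Agent.J4H9.BC

universe w

theorem result (μ ε : ℝ) (hμ : 0 < μ) (hμ1 : μ ≤ 1 / 2) (hε : 0 < ε) (hε1 : ε < μ / 4) :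
    ∃ g₀ : ℕ, ∀ g : ℕ, g₀ ≤ g → ∀ p a : ℕ, p.Prime → 0 < a → ∀ lam : ℕ → ℝ, Slopes lam →
      ∑ i ∈ Finset.range g, lam i ≤ (1 / 2 - μ) * g →
      ∀ E : Finset ℕ, (∀ j ∈ E, 0 < j ∧ j ≤ g ∧
        ∃ n : ℕ, (a : ℝ) * ∑ i ∈ Finset.range j, lam i = n) →
      ((newtonAbove p a lam g).Finite ∧
        (64 ≤ ((p ^ a : ℕ) : ℝ) ^ (μ / 2) → 0 < (newtonThrough p a lam g E).ncard) ∧
        ((∀ j, 0 < j → j < g → lam (j - 1) < lam j → j ∈ E) → g ∈ E →
          lam 0 + lam 1 + lam 2 < 1 → ∀ f ∈ newtonThrough p a lam g E, Three p a g f)) ∧
      ∀ (S : Set ℤ[X]) (D : ℝ), S ⊆ newtonAbove p a lam g → (∀ f ∈ S, Three p a g f) → 1 ≤ D →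
        ((newtonThrough p a lam g E).ncard : ℝ) ≤ D * S.ncard → ∀ m : ℕ,
        ({f : Fin m → ℤ[X] | (∀ i, f i ∈ S) ∧
            ¬ BlochSouleCurvesFor.{w} (p ^ a) (g / 2) f}.ncard : ℝ) ≤
          (m : ℝ) ^ 2 * D * 2 ^ E.card * 8 ^ g *
            ((p ^ a : ℕ) : ℝ) ^ (-((μ / 4 - ε) * g)) * (S.ncard : ℝ) ^ m :=
  main_bsc Pool.Agent.J4H57.BF.t_JOR Pool.Agent.J4H72.BF.t_TRI Pool.Agent.J4H97.BF.t_N3
    Pool.Agent.J4H97.BF.t_CMT Pool.Agent.J4H94.BF.t_DCN Pool.Agent.J4H19.BF.t_K3
    Pool.Agent.J4H54.BF.t_AVG Pool.Agent.J4H2.BF.t_TOP Pool.Agent.J4H5.BC.t_PTS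
    Pool.Agent.J4H44.BC.t_ORD Pool.Agent.J4H74.BC.t_NEC hμ hμ1 hε hε1

end Pool.Agent.Results.MP_666bea_ag.ProductsWithAllCurves
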