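import Pool.Agent.J4H10.TF.Quad

/-!
# MP_666bea_ag: zeta functions and higher Chow groups of arithmetic schemes, and trilinear forms

For a scheme `X` of finite type over `ℤ` let `eulerProduct X` be the Euler product over the closed points
of `X`, and let `A m k X = CH_m(X, k) ⊗ ℚ` (cycles of dimension `m + k` on `X × Δ^k`; it is
`CH^r(X, k) ⊗ ℚ` with `r = d - m`, `d = dim X`). The hypothesis `IsChowJ A` of the theorem collects known
properties of these groups (Bloch, Levine): isomorphisms, localization sequences, the product with the
multiplicative group, vanishing for large `m`, and the homotopy invariance for the affine bundles of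
Jouanolou.

The theorem reduces Q1, and Q1 together with Q2, for all arithmetic schemes of dimension at most `D`, to the
smooth affine cubic hypersurfaces `T(x, y, z) = 1` of the trilinear forms `T` over `ℤ` and over the prime
fields `𝔽_p` with a short block of variables (at most `D + 1`, respectively `D + 2` variables), and conversely
the case of dimension at most `D` gives all forms `T` with a block of at most `D + 2 - e` variables over all
domains of finite type over `ℤ` and of dimension `e ≤ D`. Equivalent are also the same statements for the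
intersections of few quadrics in affine spaces of arbitrary dimension, namely of `D + 1` quadrics
`B_i(y, z) = 0` over `ℤ` and of `D + 2` quadrics over the prime fields, `B_i` bilinear forms.

**Consequence** (in words): in dimension at most one Q1 and Q2 are known (for rings of integers: Hecke and
Borel; for curves over finite fields: F. K. Schmidt and Harder). So Q1 and Q2 are true for the
hypersurfaces `T(x, y, z) = 1` of arbitrary dimension, if `T` is a trilinear form over a finite field with a
block of at most three variables, or a trilinear form over an order of a number field, or over the ring of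
functions of an affine curve over a finite field, with a block of at most two variables; and for the
intersections of three quadrics `B_i(y, z) = 0` over a finite field, and of two such quadrics over an order
of a number field or over the ring of functions of an affine curve over a finite field.
-/

set_option autoImplicit false

open CategoryTheory AlgebraicGeometry Pool.Agent.Y116.UV Pool.Agent.Q282.UZ

universe w

namespace Pool.Agent.Results.MP_666bea_ag.TrilinearForms

/-- The Euler product `∏ (1 - N(x)^{-s})⁻¹` over the closed points `x` of `X`. -/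
noncomputable def eulerProduct (X : Scheme.{0}) (s : ℂ) : ℂ :=
  ∏' x : {x : X // IsClosed ({x} : Set X)}, (1 - ((Nat.card (X.residueField x.1) : ℂ) ^ (-s)))⁻¹

/-- **Q1 for `X`**: the Euler product over the closed points of `X` extends to a meromorphic function on
`ℂ`. -/
def Continues (X : Sch ℤ) : Prop :=
  ∃ F : ℂ → ℂ, MeromorphicOn F Set.univ ∧ ∃ σ : ℝ, ∀ s : ℂ, σ < s.re → F s = eulerProduct X.left s

/-- **Q1 and Q2 for `X`**: there is a function `F`, meromorphic on `ℂ`, which is equal to the Euler product
of `X` in some half-plane; for all integers `m` the spaces `A m k X`, `k ∈ ℤ`, are finite-dimensional and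
almost all zero (`FinRank`), and the order of `F` at `s = m` is `-∑ (-1)^k dim A m k X`. -/
def BlochSoule (A : ℤ → ℤ → Sch ℤ → ModuleCat.{w} ℚ) (X : Sch ℤ) : Prop :=
  ∃ F : ℂ → ℂ, MeromorphicOn F Set.univ ∧
    (∃ σ : ℝ, ∀ s : ℂ, σ < s.re → F s = eulerProduct X.left s) ∧
    ∀ m : ℤ, FinRank (A m) X ∧ meromorphicOrderAt F (m : ℂ) =
      ((-∑ᶠ k : ℤ, (k.negOnePow : ℤ) * (Module.finrank ℚ (A m k X) : ℤ) : ℤ) : WithTop ℤ)

/-- The properties of the groups `A m k X = CH_m(X, k) ⊗ ℚ` which are used: those of `IsChow`
(isomorphisms, localization sequences, `X × 𝔾_m`, vanishing for large `m`), and the homotopy invariance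
for the affine bundles of Jouanolou: if `U` is the complement of `f_1 = … = f_r = 0` in the affine scheme
`Spec B`, then the spectrum of `B[w] / (∑ f_l w_l - 1)` is an affine bundle of rank `r - 1` over `U`. -/
structure IsChowJ (A : ℤ → ℤ → Sch ℤ → ModuleCat.{w} ℚ) : Prop extends IsChow A where
  jou : ∀ (B : Type) [CommRing B] [Algebra ℤ B] [Algebra.FiniteType ℤ B] (r : ℕ) (f : Fin r → B)
    (U : Sch ℤ) (j : U ⟶ aff ℤ B), IsOpenImmersion j.left →
    Set.range j.left = {x : PrimeSpectrum B | ∃ l, f l ∉ x.asIdeal} →
    ∀ m k : ℤ, Nonempty (A (m + (r - 1)) k (aff ℤ (Jou f)) ≅ A m k U)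

open MvPolynomial in
/-- The bilinear form `∑ β_jk y_j z_k`, as a polynomial in the variables `y`, `z`: a quadratic form. -/
noncomputable def bilinear {R : Type} [CommRing R] {b c : ℕ} (β : Fin b → Fin c → R) :
    MvPolynomial (Fin b ⊕ Fin c) R :=
  ∑ j, ∑ k, C (β j k) * X (Sum.inl j) * X (Sum.inr k)

/-- The intersection of the `m` quadrics `B_i(y, z) = 0` in the affine space over `R` with the coordinates
`y`, `z`, for the bilinear forms `B_i`, `i < m`, over `R`; it is considered as a scheme over `ℤ`. -/
noncomputable def quadrics {R : Type} [CommRing R] {m b c : ℕ} (B : Fin m → Fin b → Fin c → R) : Sch ℤ :=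
  aff ℤ (MvPolynomial (Fin b ⊕ Fin c) R ⧸ Ideal.span (Set.range fun i => bilinear (B i)))

/-- `P` is true for all schemes of finite type over `ℤ`. -/
def ForAllSchemes (P : Sch ℤ → Prop) : Prop :=
  ∀ X : Sch ℤ, LocallyOfFiniteType X.hom → QuasiCompact X.hom → P X

/-- `P` is true for all schemes of finite type over `ℤ` and of dimension at most `D`. -/
def ForDimension (P : Sch ℤ → Prop) (D : ℕ) : Prop :=
  ∀ X : Sch ℤ, LocallyOfFiniteType X.hom → QuasiCompact X.hom →
    topologicalKrullDim X.left ≤ D → P X

/-- `P` is true for the hypersurfaces `T(x, y, z) = 1` over `ℤ`, for all trilinear forms `T` with coefficients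
`0` and `1`. -/
def ForZeroOneForms (P : Sch ℤ → Prop) : Prop :=
  ∀ (a b c : ℕ) (T : Fin a → Fin b → Fin c → ℤ), (∀ i j k, T i j k = 0 ∨ T i j k = 1) →
    P (aff ℤ (Hyp T))

/-- `P` is true for the hypersurfaces `T(x, y, z) = 1` over `R` (as schemes over `ℤ`), for all trilinear forms
`T` over `R` one of whose three blocks of variables has at most `m` variables. -/
def ForForms (P : Sch ℤ → Prop) (R : Type) [CommRing R] (m : ℕ) : Prop :=
  ∀ (a b c : ℕ) (T : Fin a → Fin b → Fin c → R), (a ≤ m ∨ b ≤ m ∨ c ≤ m) → P (aff ℤ (Hyp T))

/-- `P` is true for all intersections of bilinear quadrics over `ℤ` with coefficients `0` and `1`. -/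
def ForZeroOneQuadrics (P : Sch ℤ → Prop) : Prop :=
  ∀ (m b c : ℕ) (B : Fin m → Fin b → Fin c → ℤ), (∀ i j k, B i j k = 0 ∨ B i j k = 1) →
    P (quadrics B)

/-- `P` is true for all intersections of at most `m` bilinear quadrics over `R`, in affine spaces over `R`
of arbitrary dimension. -/
def ForQuadrics (P : Sch ℤ → Prop) (R : Type) [CommRing R] (m : ℕ) : Prop :=
  ∀ (r b c : ℕ) (B : Fin r → Fin b → Fin c → R), r ≤ m → P (quadrics B)

/-- **Trilinear forms, and intersections of few quadrics, suffice for `P`.** (1) Equivalent are: `P` is true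
for all schemes of finite type over `ℤ`; for the hypersurfaces `T(x, y, z) = 1`, `T` trilinear with
coefficients `0` and `1`; for all intersections of bilinear quadrics with coefficients `0` and `1`. (2) For
`D ≥ 1` the following are equivalent: `P` is true for all schemes of finite type over `ℤ` and of dimension at
most `D`; for all domains `R` of finite type over `ℤ`, of dimension at most `e ≤ D`, and all trilinear forms
over `R` with a block of at most `m ≤ D + 2 - e` variables; for all trilinear forms over `ℤ` with a block of
at most `D + 1` variables and all trilinear forms over the fields `𝔽_p`, `p` prime, with a block of at most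
`D + 2` variables; for the intersections of at most `m ≤ D + 2 - e` bilinear quadrics over all `R` as above;
for the intersections of at most `D + 1` bilinear quadrics over `ℤ` and of at most `D + 2` bilinear quadrics
over the fields `𝔽_p`, `p` prime. -/
structure FormsSuffice (P : Sch ℤ → Prop) : Prop where
  all : List.TFAE [ForAllSchemes P, ForZeroOneForms P, ForZeroOneQuadrics P]
  dim : ∀ D : ℕ, 1 ≤ D → List.TFAE [
    ForDimension P D,
    ∀ (R : Type) [CommRing R] [IsDomain R] [Algebra.FiniteType ℤ R] (e m : ℕ),
      ringKrullDim R ≤ e → e ≤ D → m + e ≤ D + 2 → ForForms P R m,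
    ForForms P ℤ (D + 1) ∧ ∀ (p : ℕ) [Fact p.Prime], ForForms P (ZMod p) (D + 2),
    ∀ (R : Type) [CommRing R] [IsDomain R] [Algebra.FiniteType ℤ R] (e m : ℕ),
      ringKrullDim R ≤ e → e ≤ D → m + e ≤ D + 2 → ForQuadrics P R m,
    ForQuadrics P ℤ (D + 1) ∧ ∀ (p : ℕ) [Fact p.Prime], ForQuadrics P (ZMod p) (D + 2)]

lemma suffice {P : Sch ℤ → Prop} (hP : Pool.Agent.J4H10.TF.Good P) : FormsSuffice P := by
  refine ⟨?_, fun D hD => ?_⟩
  · have h1 : ForAllSchemes P ↔ ForZeroOneForms P := Pool.Agent.J4H10.TF.int_iff hP
    have h2 : ForAllSchemes P ↔ ForZeroOneQuadrics P := Pool.Agent.J4H10.TF.int_quad hP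
    tfae_have 1 ↔ 2 := h1
    tfae_have 1 ↔ 3 := h2
    tfae_finish
  · have h1 := Pool.Agent.J4H10.TF.dim_tfaeZ hP hD
    have h2 := Pool.Agent.J4H10.TF.dim_quad hP hD
    tfae_have 1 ↔ 2 := h1.out 0 1
    tfae_have 1 ↔ 3 := h1.out 0 2
    tfae_have 1 ↔ 4 := h2.out 0 1
    tfae_have 1 ↔ 5 := h2.out 0 2
    tfae_finish

/-- **Theorem.** Trilinear forms, and intersections of few quadrics, suffice for Q1, and for Q1 and Q2 together, for all families
`A m k X` with the properties `IsChowJ A`. The hypersurfaces `T(x, y, z) = 1` are smooth over `R`, for all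
rings `R` and all trilinear forms `T` over `R`. -/
theorem result :
    FormsSuffice Continues ∧
    (∀ A : ℤ → ℤ → Sch ℤ → ModuleCat.{w} ℚ, IsChowJ A → FormsSuffice (BlochSoule A)) ∧
    ∀ (R : Type) [CommRing R] (a b c : ℕ) (T : Fin a → Fin b → Fin c → R),
      Smooth (aff R (Hyp T)).hom :=
  ⟨suffice Pool.Agent.J4H10.TF.good_co,
    fun _ hA => suffice (Pool.Agent.J4H10.TF.good_formula ⟨hA.toIsChow, hA.jou⟩),
    fun _ _ _ _ _ T => Pool.Agent.J4H10.TF.smooth_hyp T⟩

end Pool.Agent.Results.MP_666bea_ag.TrilinearForms
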